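import Mathlib

/-!
# The Gewirtz graph has automorphisms which are not induced by the quadrangle

A counterexample for `s = 3`: the generalized quadrangle of order `(9, 3)` (280 points and 112
lines, the quadrangle of the Hermitian surface `H(3, 9)`), given by an explicit incidence table,
a hemisystem of 56 lines (Segre's), and an automorphism of the graph `Γ(H)` on these 56 lines
(the Gewirtz graph) which is not the restriction of any collineation.
-/

namespace Pool.Agent.Results.MP_d2fb05_co.GewirtzCounterexample

/-- Generalized quadrangles of order `(s², s)`: every line has `s² + 1` points, every point lies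
on `s + 1` lines, two distinct points lie on at most one common line, and for every point `p` not
on a line `l` there is exactly one point of `l` collinear with `p`. -/
structure IsGQ {P L : Type} (I : P → L → Prop) (s : ℕ) : Prop where
  line_size : ∀ l : L, Nat.card {p : P // I p l} = s ^ 2 + 1
  point_size : ∀ p : P, Nat.card {l : L // I p l} = s + 1
  unique_line : ∀ p q : P, p ≠ q → ∀ l m : L, I p l → I q l → I p m → I q m → l = m
  proj : ∀ (p : P) (l : L), ¬ I p l → ∃! q : P, I q l ∧ ∃ m : L, I p m ∧ I q m

/-- A hemisystem of a generalized quadrangle of order `(s², s)`: every point lies on exactly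
`(s + 1) / 2` of the lines of `H`. -/
def IsHemisystem {P L : Type} (I : P → L → Prop) (s : ℕ) (H : Set L) : Prop :=
  ∀ p : P, 2 * Nat.card {l : L // l ∈ H ∧ I p l} = s + 1

/-- The graph `Γ(H)`: the vertices are the lines in `H`, adjacent when they are distinct and
meet in a point. -/
def Gam {P L : Type} (I : P → L → Prop) (H : Set L) : SimpleGraph H where
  Adj l m := l ≠ m ∧ ∃ p : P, I p l ∧ I p m
  symm := ⟨fun _ _ h => ⟨h.1.symm, h.2.imp fun _ hp => ⟨hp.2, hp.1⟩⟩⟩
  loopless := ⟨fun _ h => h.1 rfl⟩

/-- Collineations: pairs of permutations of the points and of the lines preserving incidence. -/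
structure Collineation {P L : Type} (I : P → L → Prop) where
  /-- action on the points -/
  onP : P ≃ P
  /-- action on the lines -/
  onL : L ≃ L
  inc : ∀ p l, I p l ↔ I (onP p) (onL l)

/-! ### loops and bits (for evaluation by the kernel) -/

/-- `allb n f`: `f i` for all `i < n`. -/
def allb (n : ℕ) (f : ℕ → Bool) : Bool :=
  Nat.rec (motive := fun _ => Bool) true (fun i ih => cond (f i) ih false) n

theorem allb_spec {f : ℕ → Bool} {n : ℕ} (h : allb n f = true) : ∀ i < n, f i = true := by
  induction n with
  | zero => intro i hi; exact absurd hi (Nat.not_lt_zero i)
  | succ n ih =>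
    have h' : cond (f n) (allb n f) false = true := h
    intro i hi
    cases hf : f n with
    | false => rw [hf] at h'; exact Bool.noConfusion h'
    | true =>
      rw [hf] at h'
      rcases Nat.lt_succ_iff_lt_or_eq.1 hi with h1 | h1
      · exact ih h' i h1
      · exact h1 ▸ hf

/-- evaluate the argument first -/
def force (x : ℕ) (k : ℕ → Bool) : Bool :=
  Nat.rec (motive := fun _ => Bool) (k 0) (fun n _ => k (Nat.succ n)) x

theorem force_eq (x : ℕ) (k : ℕ → Bool) : force x k = k x := by
  cases x <;> rfl

/-- number of `i < n` with `f i` -/
def cnt (n : ℕ) (f : ℕ → Bool) : ℕ :=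
  Nat.rec (motive := fun _ => ℕ) 0 (fun i ih => cond (f i) (Nat.succ ih) ih) n

theorem cnt_spec (f : ℕ → Bool) (n : ℕ) :
    cnt n f = ((Finset.range n).filter (fun i => f i = true)).card := by
  induction n with
  | zero => rfl
  | succ n ih =>
    have h' : cnt (n + 1) f = cond (f n) (Nat.succ (cnt n f)) (cnt n f) := rfl
    rw [h', Finset.range_add_one, Finset.filter_insert]
    cases hf : f n with
    | false => simp [ih]
    | true => simp [ih]

theorem card_sub (n : ℕ) (f : ℕ → Bool) : Nat.card {i : Fin n // f i.1 = true} = cnt n f := by
  rw [cnt_spec, Nat.card_eq_fintype_card, Fintype.card_subtype]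
  rw [← Finset.card_map Fin.valEmbedding]
  congr 1
  ext i
  simp only [Finset.mem_map, Finset.mem_filter, Finset.mem_univ, true_and, Fin.valEmbedding_apply,
    Finset.mem_range]
  constructor
  · rintro ⟨a, ha, rfl⟩
    exact ⟨a.2, ha⟩
  · rintro ⟨hi, hf⟩
    exact ⟨⟨i, hi⟩, hf, rfl⟩

/-- the `n`-th binary digit of `m` -/
def bit (m n : ℕ) : Bool := Nat.beq (Nat.mod (Nat.shiftRight m n) 2) 1

theorem bit_eq (m n : ℕ) : bit m n = m.testBit n := by
  rw [Nat.testBit_eq_decide_div_mod_eq]
  have h : Nat.shiftRight m n = m / 2 ^ n := Nat.shiftRight_eq_div_pow m n
  unfold bit
  rw [h]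
  have h2 : Nat.mod (m / 2 ^ n) 2 = m / 2 ^ n % 2 := rfl
  rw [h2]
  rcases Nat.mod_two_eq_zero_or_one (m / 2 ^ n) with h3 | h3 <;> rw [h3] <;> rfl

/-- bitwise or of the values of `f` -/
def orb (n : ℕ) (f : ℕ → ℕ) : ℕ :=
  Nat.rec (motive := fun _ => ℕ) 0 (fun i ih => Nat.lor (f i) ih) n

theorem orb_spec (f : ℕ → ℕ) (q n : ℕ) :
    (orb n f).testBit q = true ↔ ∃ i < n, (f i).testBit q = true := by
  induction n with
  | zero =>
    have : orb 0 f = 0 := rfl
    rw [this]
    simp
  | succ n ih =>
    have h' : orb (n + 1) f = f n ||| orb n f := rfl
    rw [h', Nat.testBit_or, Bool.or_eq_true, ih]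
    constructor
    · rintro (h | ⟨i, hi, h⟩)
      · exact ⟨n, Nat.lt_succ_self n, h⟩
      · exact ⟨i, Nat.lt_succ_of_lt hi, h⟩
    · rintro ⟨i, hi, h⟩
      rcases Nat.lt_succ_iff_lt_or_eq.1 hi with h1 | h1
      · exact Or.inr ⟨i, h1, h⟩
      · exact Or.inl (h1 ▸ h)

/-- `y` is a power of two -/
def pw (y : ℕ) : Bool :=
  force y (fun z => cond (Nat.beq z 0) false (Nat.beq (Nat.land z (Nat.sub z 1)) 0))

theorem pw_spec {y : ℕ} (h : pw y = true) : ∃ k, y = 2 ^ k := by
  unfold pw at h
  rw [force_eq] at h
  cases h0 : Nat.beq y 0 with
  | true => rw [h0] at h; exact Bool.noConfusion h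
  | false =>
    rw [h0] at h
    have h1 : y &&& (y - 1) = 0 := Nat.eq_of_beq_eq_true h
    have h2 : y ≠ 0 := by
      rintro rfl
      exact Bool.noConfusion h0
    exact Nat.ne_zero_and_sub_one_eq_zero_iff_isPowerOfTwo.1 ⟨h2, h1⟩

/-! ### the tables -/

/-- table of the 112 lines (each a set of 10 of the 280 points, as a 280-bit mask) -/
def TP : ℕ := 0x101000000008000008000010000000000002000004000000008000000000001000010020200000000020000020000000001000008000010020000000000000000040000400004001000000100000000002001000000000400040000000020000004040000000000000800200000000400000008000001000000001100000000800000040000040000000000001400000000000400040000020000010000000000200000100008000008000000000000280000000000001100000000020000040000000800004000000008080000000000000040400000000008000010020000000002000002000000000004000000000800008000008080000000000020000040000002008000008000010000000000000000000200002000000000000001004000000000000000000000400400401000000000040800000080100000000000004010000000000000000000000001001000000802000008040000004020000000000000000000010010000000004010000000008000040004080000080100000000000000000000000040040000000000010040000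0000020000108040000040200000000000040040400000010000004000000100008000000020000000000000000004010000000008008001000040000000004000400000020000000008000000000000100000004000001000018000000004004000000020000000080080000000000010001000000000000000200002020000000010000000400080000000200000000200100010000000000000000000110000020080000080000000000800400000400000000020002000000000000000000022000000080200000000008000002001000000000001000020002000000000000000004004000400000020008000000000100004000010000000000000002000000080000000800800001000080000008000000400000010000004000000000000000802000000000000000080200000000000000000000000800800000040100000201000000100800000000000200800000000000000000000002002000802000000000010200000020040000000000000000000800800000000020008000000000100002020100000100800000000000000000000002002000000000080020000000004000080001020000020040000000000010010000000000000000000000000000000002020080080040404040000000000000002040000000000000000000000000000000000800802020000000000040100802000000000000000000000000004000400120012080400000000000000080000000040000000000000000000000000040004000400088041200000000000000000080000000010000040002000000000000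000000000000000000000400401010000000000080200401000008008000000000000000000000000000000000010100400400808080800000000000000000000000000000000000800088000044020900000000000000000040000000020000000000000000000000008000800020100090402000000000000000400000000800000000000000000000000000000010111080200120000000000000008000004000000000000000000000000000000010100004040a004000800000000000800000000010000000000000000000000000000000002022020502000010000000000040000000002000000000000000000000000000002020000088401008040000000000000040000080000000000000200200000000000002040402000000000000000000000000101010100000000000000010800000000000000402020400000000000000000000000000000000200801004000000000000180011040400000000000000000000000000100402000000010000000000000000000400204041100000000000000000000001004000000002000000004000000000800010000000000000801010800000000000000000000000000000000100402008000040040000000000000010808010000000000000000000000002020202000000000000000000002000048020a000000000000000000000000000200800010000000080000000000000000081000a0802000000000000000000000200800000010000000200000000000000000011020200120000000000000000000000000010000100000002000000100000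00000000404088040008000000000000000000000040000400000002000000000004000000000080205020000100000000000000000000000020000200000100000000000800000000000a0401008040000000000000000000000080000800000000010000002000002400010200000000000000040800000000000000000080100000000000000010000100420000840000000000000400000800000000000002000000040000000000002004000081000048000000000000080000040000000000000100000008000000000040000002001800020100000000000000080400000000000000000040200000000000008000080024001020000000000000000002010000000000000000001008000000000000002000024200084000000000000000020000010000000000000040000002000000000000100800810004800000000000000001000002000000000000008000000100000000008000000118002010000000000000000001020000000000000000002004000000000000400004008080000000800000020000008000000008000000200000080000000000000020080000404000000002000080000000008000000020000800002000000000000000800000020020080000004000000008008000000000001002000000000002000080008000000000001004000000010000000020000000800004008000008000000000800080000000000000f00000082000082000000000000000820000000000000000000000000000000000000008200000000004004000004000000001000000001000000001004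000400000000000000410000000000010010000000000404000000004004000000000004000400000000000020200000000020000001000400000200000010000000004000000000000400000010001010000000000080004000000400000800040000000100000000000000000100400000f0000041020800000000000000000000208000000000000000000000000000000000000f0820000000000000208000000000000002080000000000000000000000000000000000f41000000000020800000000000000000000208000000000000000000000000000000002002001000001000002000000010000010000020000000000000000000080000800000100100004000004000000000200040000040000000000080000000002000020000000008000808000000000400200000002000000100000800000000202000000000000000000400040020000001000000200008000000000400000200002000002000000000000000fc00000001040000000000000000010400000000000000000000000000000000000000008080000080002000001000000000020800000004000000100000100000000000000000404000000208000000001000000080002000000001000000101000000000000000000020020000400000801000000000004000008010000000000000000010000100000000001001000001000002000000100000010000020000000040000000000004000040000003f0000410000000000000000004100000000000000000000000000000000000000000000fc0000000000041000000000000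000000410000000000000000000000000000000000003f0000000410000000000000000004100000000000000000000000000000000000000000fc0000000000000008080000000000000000000000080000000800000000000000000003f0000000000808000000000000000000000000000008000000020000000000000000000fc0000000000004040000000000000000000000000400000001000000000000000000003f0000000404000000000000000000000000000400000004000000000000000000000000fc0000000200020000000000000000000000000000080000008000000000000000000003f0000200020000000000000000000000000000080000000000200000000000000000000fc0000100010000000000000000000000000004000000000010000000000000000000003f0100010000000000000000000000000000000400000040000000000000000000000000ff0000000000000000000002008000000000000000000000000000000000000000000000ff0000000000000000080000002000000000000000000000000000000000000000000000ff0000000000000004000000100000000000000000000000000000000000000000000000ff0000000000000001004000000000000000000000000000000000000000000000000000fc0000000000000080000800000200000000200000000000000000000000000000000003f0000000000200002000000000020000000008000000000000000000000000000000000fc00000000000400004000000010000000004000000000000000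00000000000000000003f0000000100001000000001000000001000000000000000000000000000000000000000fc0000000000080200020000020000000000000000000000000000000000000000000003f0000080200000020000000000800000000000000000000000000000000000000000000fc0000000040101000000000040000000000000000000000000000000000000000000003f0040100000000100000100000000000000000000000000000000000000000000000000ffc0000000000000000000000000000000000000000000000000000000000000000000003ff0000000000000000000000000000000000000000000000000000000000000000000000ffc0000000000000000000000000000000000000000000000000000000000000000000003ff0000000000000000000000000000000000000000000000000000000000000000000000ff0000000000000802000000000000000000000000000000000000000000000000000000ff0000000000040100000000000000000000000000000000000000000000000000000000ff0000802000000000000000000000000000000000000000000000000000000000000000ff0040100000000000000000000000000000000000000000000000000000000000000000ffc0000000000000000000000000000000000000000000000000000000000000000000003ff0000000000000000000000000000000000000000000000000000000000000000000000ffc0000000000000000000000000000000000000000000000000000000000000000000003ff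

/-- the graph automorphism on `0, …, 55` (8 bits per entry) -/
def PH : ℕ := 0x1314360c0a2e1a240f2031033502121804250727161c0e29332311261f052d0b10223437172f281b060d2a302c09011e210032151d082b19

/-- its inverse -/
def IN : ℕ := 0x14352b151f052d0c1232190b010d2011241c26301e16072e1b080322103100281323043637291d172f210e3418330a02250f1a272c2a0906

/-- mask of the points on the line `l` -/
def mp (l : ℕ) : ℕ := Nat.mod (Nat.shiftRight TP (Nat.mul 280 l)) (Nat.pow 2 280)
/-- the automorphism -/
def ph (i : ℕ) : ℕ := Nat.mod (Nat.shiftRight PH (Nat.mul 8 i)) 256
/-- the inverse automorphism -/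
def iv (i : ℕ) : ℕ := Nat.mod (Nat.shiftRight IN (Nat.mul 8 i)) 256

/-- the points collinear with `p` -/
def cp (p : ℕ) : ℕ := orb 112 (fun l => force' (mp l) p)
where
  /-- `m` if the digit `p` of `m` is one, else zero -/
  force' (m p : ℕ) : ℕ := cond (bit m p) m 0

/-- Incidence of the quadrangle: `Fin 280` points and `Fin 112` lines. -/
def Inc (p : Fin 280) (l : Fin 112) : Prop := bit (mp l.1) p.1 = true

/-- The hemisystem: the first 56 lines. -/
def Hm : Set (Fin 112) := {l | l.1 < 56}

/-! ### checks -/

theorem chk_line : allb 112 (fun l => force (mp l) fun a =>
    Nat.beq (cnt 280 (fun p => bit a p)) 10) = true := by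
  decide +kernel

theorem chk_point : allb 280 (fun p => Nat.beq (cnt 112 (fun l => bit (mp l) p)) 4) = true := by
  decide +kernel

theorem chk_hemi : allb 280 (fun p => Nat.beq (cnt 56 (fun l => bit (mp l) p)) 2) = true := by
  decide +kernel

theorem chk_pair : allb 112 (fun l => force (mp l) fun a => allb 112 (fun m =>
    cond (Nat.beq l m) true (cond (Nat.beq (Nat.land a (mp m)) 0) true
      (pw (Nat.land a (mp m)))))) = true := by
  decide +kernel

theorem chk_proj : allb 280 (fun p => force (cp p) fun c => allb 112 (fun l =>
    cond (bit (mp l) p) true (pw (Nat.land c (mp l))))) = true := by decide +kernel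

theorem chk_phi : allb 56 (fun i => cond (Nat.blt (ph i) 56) (cond (Nat.blt (iv i) 56)
    (cond (Nat.beq (iv (ph i)) i) (Nat.beq (ph (iv i)) i) false) false) false) = true := by
  decide +kernel

theorem chk_adj : allb 56 (fun a => allb 56 (fun b => cond (Nat.beq a b) true
    (cond (Nat.beq (Nat.land (mp a) (mp b)) 0) (Nat.beq (Nat.land (mp (ph a)) (mp (ph b))) 0)
      (not (Nat.beq (Nat.land (mp (ph a)) (mp (ph b))) 0))))) = true := by decide +kernel

theorem chk_last : allb 112 (fun l => cond (bit (mp l) 7) (not (bit (mp l) 170)) true) = true := by
  decide +kernel

/-! ### consequences -/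

theorem inc_iff (p : Fin 280) (l : Fin 112) : Inc p l ↔ (mp l.1).testBit p.1 = true := by
  unfold Inc; rw [bit_eq]

set_option exponentiation.threshold 300 in
theorem mp_lt (l : ℕ) : mp l < 2 ^ 280 := Nat.mod_lt _ (Nat.two_pow_pos 280)

theorem pow_unique {y : ℕ} (h : pw y = true) : ∃ k, ∀ p, y.testBit p = true ↔ p = k := by
  obtain ⟨k, rfl⟩ := pw_spec h
  refine ⟨k, fun p => ?_⟩
  rw [Nat.testBit_two_pow, decide_eq_true_iff]
  exact eq_comm

theorem land_of {a b p : ℕ} (ha : a.testBit p = true) (hb : b.testBit p = true) :
    (Nat.land a b).testBit p = true := by
  have : Nat.land a b = a &&& b := rfl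
  rw [this, Nat.testBit_and, ha, hb]; rfl

theorem land_ne {a b p : ℕ} (ha : a.testBit p = true) (hb : b.testBit p = true) :
    Nat.beq (Nat.land a b) 0 = false := by
  cases h : Nat.beq (Nat.land a b) 0 with
  | false => rfl
  | true =>
    have h1 := Nat.eq_of_beq_eq_true h
    have h2 := land_of ha hb
    rw [h1] at h2
    simp at h2

/-- two distinct lines have at most one common point -/
theorem unique_point {l m : Fin 112} (hlm : l ≠ m) {p q : Fin 280} (h1 : Inc p l) (h2 : Inc q l)
    (h3 : Inc p m) (h4 : Inc q m) : p = q := by
  rw [inc_iff] at h1 h2 h3 h4
  have h := allb_spec chk_pair l.1 l.2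
  rw [force_eq] at h
  have h' := allb_spec h m.1 m.2
  have hne : Nat.beq l.1 m.1 = false := by
    cases hb : Nat.beq l.1 m.1 with
    | false => rfl
    | true => exact absurd (Fin.ext (Nat.eq_of_beq_eq_true hb)) hlm
  rw [hne, land_ne h1 h3] at h'
  have h5 : pw (Nat.land (mp l.1) (mp m.1)) = true := h'
  obtain ⟨k, hk⟩ := pow_unique h5
  have e1 := (hk _).1 (land_of h1 h3)
  have e2 := (hk _).1 (land_of h2 h4)
  exact Fin.ext (e1.trans e2.symm)

theorem cp_spec (p q : ℕ) : (cp p).testBit q = true ↔
    ∃ m < 112, bit (mp m) p = true ∧ (mp m).testBit q = true := by
  unfold cp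
  rw [orb_spec]
  constructor
  · rintro ⟨i, hi, h⟩
    refine ⟨i, hi, ?_⟩
    unfold cp.force' at h
    cases hb : bit (mp i) p with
    | false => rw [hb] at h; simp at h
    | true => rw [hb] at h; exact ⟨rfl, h⟩
  · rintro ⟨i, hi, h1, h2⟩
    refine ⟨i, hi, ?_⟩
    unfold cp.force'
    rw [h1]; exact h2

theorem isGQ : IsGQ Inc 3 where
  line_size l := by
    have h := allb_spec chk_line l.1 l.2
    rw [force_eq] at h
    exact (card_sub 280 (fun p => bit (mp l.1) p)).trans (Nat.eq_of_beq_eq_true h)
  point_size p := by
    have h := allb_spec chk_point p.1 p.2
    exact (card_sub 112 (fun l => bit (mp l) p.1)).trans (Nat.eq_of_beq_eq_true h)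
  unique_line p q hpq l m h1 h2 h3 h4 := by
    by_contra hne
    exact hpq (unique_point hne h1 h2 h3 h4)
  proj p l hpl := by
    have h := allb_spec chk_proj p.1 p.2
    rw [force_eq] at h
    have h' := allb_spec h l.1 l.2
    have hb : bit (mp l.1) p.1 = false := by
      cases hb : bit (mp l.1) p.1 with
      | false => rfl
      | true => exact absurd hb hpl
    rw [hb] at h'
    have h5 : pw (Nat.land (cp p.1) (mp l.1)) = true := h'
    set y := Nat.land (cp p.1) (mp l.1) with hy
    obtain ⟨k, hk⟩ := pow_unique h5
    have hyk : y.testBit k = true := (hk k).2 rfl
    have hand : ∀ q : ℕ, y.testBit q = true ↔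
        (cp p.1).testBit q = true ∧ (mp l.1).testBit q = true := by
      intro q
      have : y = cp p.1 &&& mp l.1 := rfl
      rw [this, Nat.testBit_and, Bool.and_eq_true]
    obtain ⟨hk1, hk2⟩ := (hand k).1 hyk
    have hk280 : k < 280 := by
      by_contra hge
      have h6 : mp l.1 < 2 ^ k :=
        lt_of_lt_of_le (mp_lt _) (Nat.pow_le_pow_right Nat.two_pos (not_lt.1 hge))
      rw [Nat.testBit_lt_two_pow h6] at hk2
      exact absurd hk2 (by decide)
    obtain ⟨m, hm, hm1, hm2⟩ := (cp_spec p.1 k).1 hk1
    refine ⟨⟨k, hk280⟩, ⟨?_, ⟨m, hm⟩, hm1, ?_⟩, ?_⟩
    · rw [inc_iff]; exact hk2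
    · rw [inc_iff]; exact hm2
    · rintro q ⟨hq1, m', hm1', hm2'⟩
      rw [inc_iff] at hq1 hm2'
      have hc : (cp p.1).testBit q.1 = true := (cp_spec p.1 q.1).2 ⟨m'.1, m'.2, hm1', hm2'⟩
      exact Fin.ext ((hk _).1 ((hand q.1).2 ⟨hc, hq1⟩))

theorem isHemi : IsHemisystem Inc 3 Hm := by
  intro p
  have h := Nat.eq_of_beq_eq_true (allb_spec chk_hemi p.1 p.2)
  have e1 : Nat.card {l : Fin 112 // l ∈ Hm ∧ Inc p l} =
      Nat.card {i : Fin 56 // bit (mp i.1) p.1 = true} := by
    refine Nat.card_congr ⟨fun l => ⟨⟨l.1.1, l.2.1⟩, l.2.2⟩,
      fun i => ⟨⟨i.1.1, lt_trans i.1.2 (by norm_num)⟩, i.1.2, i.2⟩, fun l => rfl, fun i => rfl⟩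
  rw [e1, card_sub 56 (fun l => bit (mp l) p.1), h]

/-- vertices of the graph as numbers below 56 -/
def vert (i : ℕ) (hi : i < 56) : Hm := ⟨⟨i, lt_trans hi (by norm_num)⟩, hi⟩

theorem phi_facts {i : ℕ} (hi : i < 56) : ph i < 56 ∧ iv i < 56 ∧ iv (ph i) = i ∧
    ph (iv i) = i := by
  have h := allb_spec chk_phi i hi
  cases h1 : Nat.blt (ph i) 56 with
  | false => rw [h1] at h; exact Bool.noConfusion h
  | true =>
    rw [h1] at h
    cases h2 : Nat.blt (iv i) 56 with
    | false => rw [h2] at h; exact Bool.noConfusion h
    | true =>
      rw [h2] at h
      cases h3 : Nat.beq (iv (ph i)) i with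
      | false => rw [h3] at h; exact Bool.noConfusion h
      | true =>
        rw [h3] at h
        exact ⟨Nat.le_of_ble_eq_true h1, Nat.le_of_ble_eq_true h2, Nat.eq_of_beq_eq_true h3,
          Nat.eq_of_beq_eq_true h⟩

/-- the permutation of the hemisystem -/
def phiE : Hm ≃ Hm where
  toFun l := vert (ph l.1.1) (phi_facts l.2).1
  invFun l := vert (iv l.1.1) (phi_facts l.2).2.1
  left_inv l := Subtype.ext (Fin.ext (phi_facts l.2).2.2.1)
  right_inv l := Subtype.ext (Fin.ext (phi_facts l.2).2.2.2)

theorem meet_iff (l m : Fin 112) : (∃ p : Fin 280, Inc p l ∧ Inc p m) ↔
    Nat.beq (Nat.land (mp l.1) (mp m.1)) 0 = false := by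
  constructor
  · rintro ⟨p, h1, h2⟩
    rw [inc_iff] at h1 h2
    exact land_ne h1 h2
  · intro h
    have hne : Nat.land (mp l.1) (mp m.1) ≠ 0 := by
      intro h0
      rw [h0] at h
      exact absurd h (by decide)
    obtain ⟨k, hk⟩ := Nat.exists_testBit_of_ne_zero hne
    have hand : (mp l.1).testBit k = true ∧ (mp m.1).testBit k = true := by
      have : Nat.land (mp l.1) (mp m.1) = mp l.1 &&& mp m.1 := rfl
      rw [this, Nat.testBit_and, Bool.and_eq_true] at hk
      exact hk
    have hk280 : k < 280 := by
      by_contra hge
      have h6 : mp l.1 < 2 ^ k :=
        lt_of_lt_of_le (mp_lt _) (Nat.pow_le_pow_right Nat.two_pos (not_lt.1 hge))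
      have := hand.1
      rw [Nat.testBit_lt_two_pow h6] at this
      exact absurd this (by decide)
    exact ⟨⟨k, hk280⟩, (inc_iff _ _).2 hand.1, (inc_iff _ _).2 hand.2⟩

/-- the automorphism of the graph -/
def phi : Gam Inc Hm ≃g Gam Inc Hm where
  toEquiv := phiE
  map_rel_iff' := by
    intro a b
    have key : a ≠ b → ((∃ p : Fin 280, Inc p (phiE a) ∧ Inc p (phiE b)) ↔
        ∃ p : Fin 280, Inc p a ∧ Inc p b) := by
      intro hab
      have hne : Nat.beq a.1.1 b.1.1 = false := by
        cases hb : Nat.beq a.1.1 b.1.1 with
        | false => rfl
        | true => exact absurd (Subtype.ext (Fin.ext (Nat.eq_of_beq_eq_true hb))) hab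
      have h := allb_spec (allb_spec chk_adj a.1.1 a.2) b.1.1 b.2
      rw [hne] at h
      rw [meet_iff, meet_iff]
      have ea : ((phiE a : Hm) : Fin 112).1 = ph a.1.1 := rfl
      have eb : ((phiE b : Hm) : Fin 112).1 = ph b.1.1 := rfl
      rw [ea, eb]
      cases h1 : Nat.beq (Nat.land (mp a.1.1) (mp b.1.1)) 0 with
      | true =>
        rw [h1] at h
        have h2 : Nat.beq (Nat.land (mp (ph a.1.1)) (mp (ph b.1.1))) 0 = true := h
        rw [h2]
      | false =>
        rw [h1] at h
        have h2 : (not (Nat.beq (Nat.land (mp (ph a.1.1)) (mp (ph b.1.1))) 0)) = true := h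
        rw [Bool.not_eq_true'] at h2
        rw [h2]
    constructor
    · rintro ⟨h1, h2⟩
      have hab : a ≠ b := fun h => h1 (by rw [h])
      exact ⟨hab, (key hab).1 h2⟩
    · rintro ⟨h1, h2⟩
      exact ⟨fun h => h1 (phiE.injective h), (key h1).2 h2⟩

/-- **Q1 is false, already for `s = 3`.**  There are a generalized quadrangle of order `(9, 3)`,
a hemisystem `H` of it and an automorphism `φ` of the graph `Γ(H)` such that no collineation of
the quadrangle agrees with `φ` on the lines of `H`. -/
theorem result : ∃ (P L : Type) (_ : Fintype P) (_ : Fintype L) (I : P → L → Prop) (H : Set L),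
    IsGQ I 3 ∧ IsHemisystem I 3 H ∧
    ∃ φ : Gam I H ≃g Gam I H, ¬ ∃ c : Collineation I, ∀ l : H, c.onL l = (φ l : L) := by
  refine ⟨Fin 280, Fin 112, inferInstance, inferInstance, Inc, Hm, isGQ, isHemi, phi, ?_⟩
  rintro ⟨c, hc⟩
  have hphi : ∀ i (hi : i < 56), c.onL ⟨i, lt_trans hi (by norm_num)⟩ =
      ⟨ph i, lt_trans (phi_facts hi).1 (by norm_num)⟩ := fun i hi => hc (vert i hi)
  -- the point 10 = 1 ∩ 6 goes to 7, the point 30 = 3 ∩ 4 goes to 170
  have img : ∀ (p p' a b : ℕ) (hp : p < 280) (hp' : p' < 280) (ha : a < 56) (hb : b < 56),
      a ≠ b → bit (mp a) p = true → bit (mp b) p = true → bit (mp (ph a)) p' = true →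
      bit (mp (ph b)) p' = true → c.onP ⟨p, hp⟩ = ⟨p', hp'⟩ := by
    intro p p' a b hp hp' ha hb hab h1 h2 h3 h4
    have e1 := (c.inc ⟨p, hp⟩ ⟨a, lt_trans ha (by norm_num)⟩).1 h1
    have e2 := (c.inc ⟨p, hp⟩ ⟨b, lt_trans hb (by norm_num)⟩).1 h2
    rw [hphi a ha] at e1
    rw [hphi b hb] at e2
    refine unique_point ?_ e1 h3 e2 h4
    intro h
    apply hab
    have h5 : ph a = ph b := congrArg Fin.val h
    rw [← (phi_facts ha).2.2.1, ← (phi_facts hb).2.2.1, h5]
  have i1 := img 10 7 1 6 (by norm_num) (by norm_num) (by norm_num) (by norm_num) (by norm_num)
    (by decide +kernel) (by decide +kernel) (by decide +kernel) (by decide +kernel)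
  have i2 := img 30 170 3 4 (by norm_num) (by norm_num) (by norm_num) (by norm_num) (by norm_num)
    (by decide +kernel) (by decide +kernel) (by decide +kernel) (by decide +kernel)
  have j1 := (c.inc ⟨10, by norm_num⟩ ⟨56, by norm_num⟩).1
    (show bit (mp 56) 10 = true by decide +kernel)
  have j2 := (c.inc ⟨30, by norm_num⟩ ⟨56, by norm_num⟩).1
    (show bit (mp 56) 30 = true by decide +kernel)
  rw [i1] at j1
  rw [i2] at j2
  have h := allb_spec chk_last (c.onL ⟨56, by norm_num⟩).1 (c.onL ⟨56, by norm_num⟩).2
  have j1' : bit (mp (c.onL ⟨56, by norm_num⟩).1) 7 = true := j1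
  have j2' : bit (mp (c.onL ⟨56, by norm_num⟩).1) 170 = true := j2
  rw [j1', j2'] at h
  exact absurd h (by decide)

end Pool.Agent.Results.MP_d2fb05_co.GewirtzCounterexample
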